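import Mathlib
import Pool.Agent.Run7.h802.FH.Iface
import Pool.Agent.Run7.h633.HP.Base

/-! Project FH (helper802), piece MAC (helper321): elimination theory. -/

set_option autoImplicit false

namespace Pool.Agent.Run7.h321.FH

open MvPolynomial Pool.Agent.Run7.h802.HP

/-- The exponents of degree `N` in `m` variables. -/
abbrev Ex (m N : ℕ) : Type :=
  {α : Fin m →₀ ℕ // α ∈ Finset.finsuppAntidiag (Finset.univ : Finset (Fin m)) N}

lemma ex_sum {m N : ℕ} (α : Ex m N) : ∑ i, α.1 i = N :=
  (Finset.mem_finsuppAntidiag.1 α.2).1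

lemma mem_ex {m N : ℕ} {α : Fin m →₀ ℕ} (h : α.degree = N) :
    α ∈ Finset.finsuppAntidiag (Finset.univ : Finset (Fin m)) N := by
  rw [Finset.mem_finsuppAntidiag]
  refine ⟨?_, Finset.subset_univ _⟩
  rw [← h, Finsupp.degree_eq_sum]

lemma ex_deg {m N : ℕ} (α : Ex m N) : α.1.degree = N := by
  rw [Finsupp.degree_eq_sum]
  exact ex_sum α

lemma hom_ext {m N : ℕ} {R : Type} [CommRing R] {p q : MvPolynomial (Fin m) R}
    (hp : p.IsHomogeneous N) (hq : q.IsHomogeneous N)
    (h : ∀ α : Ex m N, coeff α.1 p = coeff α.1 q) : p = q := by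
  ext α
  by_cases hα : α.degree = N
  · exact h ⟨α, mem_ex hα⟩
  · rw [hp.coeff_eq_zero hα, hq.coeff_eq_zero hα]

theorem lemA {m : ℕ} {ι : Type} [Fintype ι] {R k : Type} [CommRing R] [Field k] (φ : R →+* k)
    (f : ι → MvPolynomial (Fin m) R) (D : ι → ℕ) (hf : ∀ j, (f j).IsHomogeneous (D j)) (N : ℕ)
    (hN : ∀ α : Ex m N, (monomial α.1 (1 : k)) ∈ Ideal.span (Set.range fun j => map φ (f j))) :
    ∃ e : R, φ e ≠ 0 ∧ ∀ α : Ex m N, monomial α.1 e ∈ Ideal.span (Set.range f) := by
  classical
  set Q : Set (MvPolynomial (Fin m) R) :=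
    {g | g ∈ Ideal.span (Set.range f) ∧ g.IsHomogeneous N} with hQ
  set V : Set (Ex m N → k) := (fun g α => φ (coeff α.1 g)) '' Q with hV
  have h1 : ∀ j (c : MvPolynomial (Fin m) k),
      (fun α : Ex m N => coeff α.1 (c * map φ (f j))) ∈ Submodule.span k V := by
    intro j c
    induction c using MvPolynomial.induction_on' with
    | monomial β c =>
      by_cases hβ : β.degree + D j = N
      · have h2 : (fun α : Ex m N => coeff α.1 (monomial β c * map φ (f j))) =
            c • (fun α : Ex m N => φ (coeff α.1 (monomial β 1 * f j))) := by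
          funext α
          rw [Pi.smul_apply, smul_eq_mul, ← coeff_map, map_mul, map_monomial, map_one,
            ← coeff_C_mul, ← mul_assoc, C_mul_monomial, mul_one]
        rw [h2]
        apply Submodule.smul_mem
        apply Submodule.subset_span
        refine ⟨monomial β 1 * f j, ⟨Ideal.mul_mem_left _ _ (Ideal.subset_span ⟨j, rfl⟩), ?_⟩,
          rfl⟩
        rw [← hβ]
        exact (isHomogeneous_monomial _ rfl).mul (hf j)
      · have h2 : (fun α : Ex m N => coeff α.1 (monomial β c * map φ (f j))) = 0 := by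
          funext α
          have hh : (monomial β c * map φ (f j)).IsHomogeneous (β.degree + D j) :=
            (isHomogeneous_monomial _ rfl).mul ((hf j).map φ)
          exact hh.coeff_eq_zero (by rw [ex_deg]; exact fun h => hβ h.symm)
        rw [h2]
        exact Submodule.zero_mem _
    | add p q hp hq =>
      have h2 : (fun α : Ex m N => coeff α.1 ((p + q) * map φ (f j))) =
          (fun α : Ex m N => coeff α.1 (p * map φ (f j))) +
          (fun α : Ex m N => coeff α.1 (q * map φ (f j))) := by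
        funext α
        rw [add_mul, coeff_add, Pi.add_apply]
      rw [h2]
      exact Submodule.add_mem _ hp hq
  have h2 : Submodule.span k V = ⊤ := by
    rw [eq_top_iff, ← (Pi.basisFun k (Ex m N)).span_eq, Submodule.span_le]
    rintro _ ⟨α, rfl⟩
    obtain ⟨c, hc⟩ := (Ideal.mem_span_range_iff_exists_fun).1 (hN α)
    have h3 : (Pi.basisFun k (Ex m N) α) =
        ∑ j, (fun β : Ex m N => coeff β.1 (c j * map φ (f j))) := by
      funext β
      rw [Finset.sum_apply, ← coeff_sum, hc, coeff_monomial, Pi.basisFun_apply, Pi.single_apply]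
      congr 1
      rw [eq_iff_iff, eq_comm, Subtype.ext_iff]
    rw [h3]
    exact Submodule.sum_mem _ fun j _ => h1 j (c j)
  obtain ⟨g, hg1, -, hg3⟩ := Submodule.exists_fun_fin_finrank_span_eq k V
  have h4 : Fintype.card (Ex m N) = Fintype.card (Fin (Module.finrank k (Submodule.span k V))) := by
    rw [Fintype.card_fin, h2, finrank_top, Module.finrank_fintype_fun_eq_card]
  set E := Fintype.equivOfCardEq h4
  have h5 : ∀ β : Ex m N, ∃ G : MvPolynomial (Fin m) R, G ∈ Q ∧
      (fun α : Ex m N => φ (coeff α.1 G)) = g (E β) := fun β => hg1 (E β)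
  choose G hG1 hG2 using h5
  set B : Matrix (Ex m N) (Ex m N) R := Matrix.of fun β α => coeff α.1 (G β) with hB
  have h6 : LinearIndependent k (φ.mapMatrix B).row := by
    have h7 : (φ.mapMatrix B).row = g ∘ E := by
      funext β
      rw [Function.comp_apply, ← hG2]
      rfl
    rw [h7]
    exact hg3.comp _ E.injective
  refine ⟨B.det, ?_, fun γ => ?_⟩
  · rw [RingHom.map_det]
    rw [Matrix.linearIndependent_rows_iff_isUnit, Matrix.isUnit_iff_isUnit_det] at h6
    exact h6.ne_zero
  · have h8 : monomial γ.1 B.det = ∑ β, C (B.adjugate γ β) * G β := by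
      refine hom_ext (isHomogeneous_monomial _ (ex_deg γ)) ?_ fun α => ?_
      · refine IsHomogeneous.sum _ _ _ fun β _ => ?_
        have := (isHomogeneous_C (Fin m) (B.adjugate γ β)).mul (hG1 β).2
        rwa [zero_add] at this
      · rw [coeff_sum, coeff_monomial]
        have h9 := congrFun (congrFun (Matrix.adjugate_mul B) γ) α
        rw [Matrix.mul_apply, Matrix.smul_apply, Matrix.one_apply, smul_eq_mul] at h9
        simp only [coeff_C_mul]
        rw [show (∑ β, B.adjugate γ β * coeff α.1 (G β)) = ∑ β, B.adjugate γ β * B β α from rfl,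
          h9, mul_ite, mul_one, mul_zero]
        congr 1
        rw [eq_iff_iff, Subtype.ext_iff]
    rw [h8]
    exact Ideal.sum_mem _ fun β _ => Ideal.mul_mem_left _ _ (hG1 β).1

/-- Nullstellensatz for ideals without zeros in the projective space. -/
theorem lemB {m : ℕ} {k : Type} [Field k] (I : Ideal (MvPolynomial (Fin m) k))
    (h : ∀ x : Fin m → AlgebraicClosure k, (∀ p ∈ I, aeval x p = 0) → x = 0) :
    ∃ N : ℕ, ∀ α : Ex m N, (monomial α.1 (1 : k)) ∈ I := by
  have h1 : ∀ i : Fin m, ∃ e : ℕ, (X i : MvPolynomial (Fin m) k) ^ e ∈ I := by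
    intro i
    have h2 : (X i : MvPolynomial (Fin m) k) ∈ I.radical := by
      rw [← vanishingIdeal_zeroLocus_eq_radical (K := AlgebraicClosure k) I]
      intro x hx
      rw [h x hx, aeval_X, Pi.zero_apply]
    exact h2
  choose e he using h1
  refine ⟨∑ i, e i + 1, fun α => ?_⟩
  obtain ⟨i, hi⟩ : ∃ i, e i ≤ α.1 i := by
    by_contra hcon
    push Not at hcon
    have h2 : ∑ i, α.1 i ≤ ∑ i, e i := Finset.sum_le_sum fun i _ => (hcon i).le
    rw [ex_sum] at h2
    omega
  have h2 : monomial α.1 (1 : k) = monomial (α.1 - Finsupp.single i (e i)) 1 * X i ^ e i := by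
    rw [X_pow_eq_monomial, monomial_mul, mul_one, tsub_add_cancel_of_le]
    rw [Finsupp.single_le_iff]
    exact hi
  rw [h2]
  exact Ideal.mul_mem_left _ _ (he i)

lemma map_form {n d : ℕ} {R S : Type} [CommRing R] [CommRing S] (φ : R →+* S)
    (a : Mon n d → R) : map φ (form a) = form (fun m => φ (a m)) := by
  unfold form
  rw [map_sum]
  refine Finset.sum_congr rfl fun m _ => ?_
  simp only [map_mul, map_C, map_prod, map_pow, map_X]

lemma form_hom {n d : ℕ} {R : Type} [CommRing R] (a : Mon n d → R) :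
    (form a).IsHomogeneous d := by
  rw [Pool.Agent.Run7.h633.HP.form_eq]
  refine IsHomogeneous.sum _ _ _ fun m _ => ?_
  have := (isHomogeneous_C (Fin (n + 2)) (a m)).mul
    ((Pool.Agent.Run7.h633.HP.mono_hom m).map (Int.castRingHom R))
  rwa [zero_add] at this

/-- the universal form and its derivatives -/
noncomputable def uf (n d : ℕ) (o : Option (Fin (n + 2))) :
    MvPolynomial (Fin (n + 2)) (MvPolynomial (Mon n d) ℤ) :=
  o.elim (form (fun m => X m)) (fun i => pderiv i (form (fun m => X m)))

/-- the same for a form over a ring -/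
noncomputable def af {n d : ℕ} {R : Type} [CommRing R] (a : Mon n d → R)
    (o : Option (Fin (n + 2))) : MvPolynomial (Fin (n + 2)) R :=
  o.elim (form a) (fun i => pderiv i (form a))

lemma uf_hom (n d : ℕ) (o : Option (Fin (n + 2))) :
    (uf n d o).IsHomogeneous (o.elim d fun _ => d - 1) := by
  cases o with
  | none => exact form_hom _
  | some i => exact (form_hom _).pderiv

lemma map_af {n d : ℕ} {R S : Type} [CommRing R] [CommRing S] (φ : R →+* S)
    (a : Mon n d → R) (o : Option (Fin (n + 2))) :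
    map φ (af a o) = af (fun m => φ (a m)) o := by
  cases o with
  | none => exact map_form φ a
  | some i =>
    change map φ (pderiv i (form a)) = pderiv i (form _)
    rw [← map_form, MvPolynomial.pderiv_map]

lemma sing_af {n d : ℕ} {R : Type} [CommRing R] (a : Mon n d → R) (x : Fin (n + 2) → R) :
    Sing a x ↔ ∀ o, eval x (af a o) = 0 := by
  constructor
  · rintro ⟨h1, h2⟩ (_ | i)
    · exact h1
    · exact h2 i
  · intro h
    exact ⟨h none, fun i => h (some i)⟩

theorem t_MAC : Pool.Agent.Run7.h802.FH.S_MAC := by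
  intro n d hd
  set E : Set (MvPolynomial (Mon n d) ℤ) := {e | ∃ N : ℕ, ∀ α : Ex (n + 2) N,
    monomial α.1 e ∈ Ideal.span (Set.range (uf n d))} with hE
  obtain ⟨s, hs1, hs2⟩ := (Submodule.fg_span_iff_fg_span_finset_subset
    (R := MvPolynomial (Mon n d) ℤ) E).1 (IsNoetherian.noetherian _)
  have hmap : ∀ (S : Type) [CommRing S] (a : Mon n d → S) (o : Option (Fin (n + 2))),
      map ((aeval a : MvPolynomial (Mon n d) ℤ →ₐ[ℤ] S) : MvPolynomial (Mon n d) ℤ →+* S)
        (uf n d o) = af a o := by
    intro S _ a o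
    have h1 := map_af ((aeval a : MvPolynomial (Mon n d) ℤ →ₐ[ℤ] S) :
      MvPolynomial (Mon n d) ℤ →+* S) (fun m => X m) o
    simp only [RingHom.coe_coe, aeval_X] at h1
    exact h1
  refine ⟨s, fun k _ a => ⟨fun h => ?_, ?_⟩⟩
  · by_contra hcon
    push Not at hcon
    obtain ⟨N, hN⟩ := lemB (Ideal.span (Set.range (af a))) (by
      intro x hx
      by_contra hx0
      refine hcon (AlgebraicClosure k) inferInstance inferInstance x hx0 ?_
      rw [sing_af]
      intro o
      have h1 := hx (af a o) (Ideal.subset_span ⟨o, rfl⟩)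
      rw [← map_af, eval_map]
      exact h1)
    obtain ⟨e, he1, he2⟩ := lemA ((aeval a : MvPolynomial (Mon n d) ℤ →ₐ[ℤ] k) :
      MvPolynomial (Mon n d) ℤ →+* k) (uf n d) _ (uf_hom n d) N (by
        simp only [hmap]
        exact hN)
    apply he1
    have h2 : e ∈ Submodule.span (MvPolynomial (Mon n d) ℤ) (s : Set (MvPolynomial (Mon n d) ℤ)) := by
      rw [← hs2]
      exact Submodule.subset_span ⟨N, he2⟩
    have h3 : Ideal.span (s : Set (MvPolynomial (Mon n d) ℤ)) ≤
        RingHom.ker ((aeval a : MvPolynomial (Mon n d) ℤ →ₐ[ℤ] k) :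
          MvPolynomial (Mon n d) ℤ →+* k) := by
      rw [Ideal.span_le]
      exact fun e he => h e he
    exact h3 h2
  · rintro ⟨K, _, _, x, hx, hS⟩ e he
    obtain ⟨N, hN⟩ := hs1 he
    obtain ⟨i, hi⟩ : ∃ i, x i ≠ 0 := by
      by_contra hcon
      push Not at hcon
      exact hx (funext hcon)
    set b : Mon n d → K := fun m => algebraMap k K (a m) with hb
    set ψ : MvPolynomial (Fin (n + 2)) (MvPolynomial (Mon n d) ℤ) →+* K :=
      eval₂Hom ((aeval b : MvPolynomial (Mon n d) ℤ →ₐ[ℤ] K) :
        MvPolynomial (Mon n d) ℤ →+* K) x with hψ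
    have h1 : Ideal.span (Set.range (uf n d)) ≤ RingHom.ker ψ := by
      rw [Ideal.span_le]
      rintro _ ⟨o, rfl⟩
      have h2 := (sing_af b x).1 hS o
      rw [← hmap K b o, eval_map] at h2
      exact h2
    have h3 : Finsupp.single i N ∈ Finset.finsuppAntidiag (Finset.univ : Finset (Fin (n + 2))) N :=
      mem_ex (by rw [Finsupp.degree_single])
    have h4 := h1 (hN ⟨_, h3⟩)
    rw [RingHom.mem_ker, hψ, coe_eval₂Hom, eval₂_monomial, Finsupp.prod_single_index (by simp)] at h4
    have h5 : aeval b e = 0 := by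
      rcases mul_eq_zero.1 h4 with h | h
      · exact h
      · exact absurd h (pow_ne_zero _ hi)
    have h6 : algebraMap k K (aeval a e) = aeval b e := by
      rw [Pool.Agent.Run7.h633.HP.map_aeval_int]
    rw [h5] at h6
    exact (algebraMap k K).injective (by rw [h6, map_zero])

end Pool.Agent.Run7.h321.FH
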