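import Mathlib
import Pool.Agent.Run7.h802.FH.Iface
import Pool.Agent.Run7.h633.HP.Asm
import Pool.Agent.Run7.h590.HP.DETNE
import Pool.Agent.Run7.h590.HP.MIN

/-! Project FH (helper802), piece RES (helper321): the discriminant modulo large primes. The kernel
of the universal singular form is a prime ideal of height one, by the relation `der_prop` of
helper633. -/

set_option autoImplicit false

namespace Pool.Agent.Run7.h321.FH

open MvPolynomial Pool.Agent.Run7.h802.HP Pool.Agent.Run7.h633.HP

/-- A kernel in `A[X]` which meets `A` in zero is generated by each of its prime elements. -/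
theorem gen {A W : Type} [CommRing A] [IsDomain A] [UniqueFactorizationMonoid A] [CommRing W]
    [IsDomain W] (ε : Polynomial A →+* W) (hε : ∀ c : A, ε (Polynomial.C c) = 0 → c = 0)
    (p e : Polynomial A) (hp : Prime p) (hp0 : ε p = 0) (he : ε e = 0) : p ∣ e := by
  classical
  have hdeg : p.natDegree ≠ 0 := by
    intro h
    rw [Polynomial.natDegree_eq_zero] at h
    obtain ⟨c, rfl⟩ := h
    exact hp.ne_zero (by rw [hε c hp0, map_zero])
  have hprim : p.IsPrimitive := hp.irreducible.isPrimitive hdeg
  have hirr : Irreducible (p.map (algebraMap A (FractionRing A))) :=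
    (hprim.irreducible_iff_irreducible_map_fraction_map).1 hp.irreducible
  have hinj : Function.Injective (Polynomial.map (algebraMap A (FractionRing A))) :=
    Polynomial.map_injective _ (IsFractionRing.injective _ _)
  by_cases hdvd : p.map (algebraMap A (FractionRing A)) ∣ e.map (algebraMap A (FractionRing A))
  · obtain ⟨q, hq⟩ := hdvd
    obtain ⟨b, hbm, hb⟩ := IsLocalization.integerNormalization_spec (nonZeroDivisors A) q
    set q' := IsLocalization.integerNormalization (nonZeroDivisors A) q with hq'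
    have h1 : Polynomial.C b * e = p * q' := by
      apply hinj
      rw [Polynomial.map_mul, Polynomial.map_mul, hq, hb, Polynomial.map_C, Algebra.smul_def,
        Polynomial.algebraMap_apply]
      ring
    have h2 : p ∣ Polynomial.C b * e := ⟨q', h1⟩
    rcases hp.dvd_or_dvd h2 with h3 | h3
    · exfalso
      have hb0 : b ≠ 0 := nonZeroDivisors.ne_zero hbm
      have h4 := Polynomial.natDegree_le_of_dvd h3 (by rwa [Ne, Polynomial.C_eq_zero])
      rw [Polynomial.natDegree_C] at h4
      omega
    · exact h3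
  · exfalso
    have hcop := (hirr.coprime_iff_not_dvd).2 hdvd
    obtain ⟨u, v, huv⟩ := hcop
    obtain ⟨b, hbm, hb⟩ := IsLocalization.integerNormalization_spec (nonZeroDivisors A) u
    obtain ⟨c, hcm, hc⟩ := IsLocalization.integerNormalization_spec (nonZeroDivisors A) v
    set u' := IsLocalization.integerNormalization (nonZeroDivisors A) u with hu'
    set v' := IsLocalization.integerNormalization (nonZeroDivisors A) v with hv'
    have h1 : Polynomial.C (b * c : A) = Polynomial.C c * u' * p +
        Polynomial.C b * v' * e := by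
      apply hinj
      simp only [Polynomial.map_mul, Polynomial.map_add, hb, hc, Polynomial.map_C,
        Algebra.smul_def, Polynomial.algebraMap_apply, map_mul]
      linear_combination (-1 : Polynomial (FractionRing A)) *
        (Polynomial.C (algebraMap A (FractionRing A) b) *
          Polynomial.C (algebraMap A (FractionRing A) c)) * huv
    have h2 := congrArg ε h1
    rw [map_add, map_mul _ _ p, map_mul _ _ e, hp0, he, mul_zero, mul_zero, add_zero] at h2
    have h3 := hε _ h2
    exact mul_ne_zero (nonZeroDivisors.ne_zero hbm) (nonZeroDivisors.ne_zero hcm) h3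

variable {n d : ℕ}

lemma ae_zero {σ R : Type} [CommRing R] (x : σ → R) : ae x (0 : MvPolynomial σ ℤ) = 0 :=
  map_zero (aeval x)

lemma ae_add {σ R : Type} [CommRing R] (x : σ → R) (f g : MvPolynomial σ ℤ) :
    ae x (f + g) = ae x f + ae x g := map_add (aeval x) f g

lemma ae_C {σ R : Type} [CommRing R] (x : σ → R) (c : ℤ) :
    ae x (C c : MvPolynomial σ ℤ) = (c : R) := by
  unfold ae
  rw [aeval_C]
  simp

lemma ae_mono_ne (m : Mon n d) : ae (xi n d 0) (mono m) ≠ 0 := by
  unfold ae mono
  rw [map_prod, Finset.prod_ne_zero_iff]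
  intro i _
  rw [map_pow, aeval_X]
  apply pow_ne_zero
  by_cases hi : i = 0
  · subst hi
    rw [xi_self]
    exact one_ne_zero
  · rw [xi_ne 0 i hi]
    exact X_ne_zero _

lemma pd_comm {σ : Type} (i j : σ) (f : MvPolynomial σ ℤ) :
    pderiv i (pderiv j f) = pderiv j (pderiv i f) := by
  classical
  have h : ⁅pderiv (R := ℤ) i, pderiv (R := ℤ) j⁆ = 0 := by
    refine MvPolynomial.derivation_ext fun k => ?_
    rw [Derivation.commutator_apply, pderiv_X, pderiv_X, Pi.single_apply, Pi.single_apply]
    split_ifs <;> simp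
  have h1 := congrArg (fun D => D f) h
  simp only [Derivation.commutator_apply, Derivation.coe_zero, Pi.zero_apply] at h1
  exact sub_eq_zero.1 h1

/-- No relation of the universal singular form omits a variable. -/
theorem no_rel (hd : 1 ≤ d) (hdet : hess (al (n := n) hd 0) (xi n d 0) ≠ 0) (m1 : Mon n d) :
    ∀ (N : ℕ) (q : MvPolynomial (Mon n d) ℤ), q.totalDegree ≤ N →
      ae (al (n := n) hd 0) q = 0 → pderiv m1 q = 0 → q = 0 := by
  intro N
  induction N with
  | zero =>
    intro q hq hq1 _
    have h1 := totalDegree_eq_zero_iff_eq_C.1 (Nat.le_zero.1 hq)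
    rw [h1, ae_C] at hq1
    have h2 : coeff 0 q = 0 := by exact_mod_cast hq1
    rw [h1, h2, map_zero]
  | succ N ih =>
    intro q hq hq1 hq2
    by_cases h0 : q.totalDegree = 0
    · exact ih q (by omega) hq1 hq2
    exfalso
    obtain ⟨m, hm⟩ := Run7.h590.HP.exists_pderiv_ne_zero q h0
    apply hm
    have hlt := Run7.h590.HP.totalDegree_pderiv_lt q m hm
    refine ih _ (by omega) ?_ ?_
    · have h1 := der_prop hd hdet q hq1 m1
      rw [hq2, ae_zero] at h1
      have h2 : ae (al hd 0) (pderiv (sp hd 0 0) q) = 0 :=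
        (mul_eq_zero.1 h1.symm).resolve_left (ae_mono_ne m1)
      rw [der_prop hd hdet q hq1 m, h2, mul_zero]
    · rw [pd_comm, hq2, map_zero]

/-- The kernel is generated by each of its prime elements. -/
theorem dvd_of_ker (hd : 1 ≤ d) (hdet : hess (al (n := n) hd 0) (xi n d 0) ≠ 0) (m1 : Mon n d)
    (p e : MvPolynomial (Mon n d) ℤ) (hp : Prime p) (hp0 : ae (al (n := n) hd 0) p = 0)
    (he : ae (al (n := n) hd 0) e = 0) : p ∣ e := by
  classical
  set θ : MvPolynomial (Mon n d) ℤ ≃ₐ[ℤ] Polynomial (MvPolynomial {m : Mon n d // m ≠ m1} ℤ) :=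
    (renameEquiv ℤ (Equiv.optionSubtypeNe m1).symm).trans (optionEquivLeft ℤ _) with hθ
  set ε : Polynomial (MvPolynomial {m : Mon n d // m ≠ m1} ℤ) →+* MvPolynomial (Vr n d 0) ℤ :=
    (aeval (al (n := n) hd 0)).toRingHom.comp θ.symm.toAlgHom.toRingHom with hεd
  have hεθ : ∀ f, ε (θ f) = ae (al (n := n) hd 0) f := by
    intro f
    change aeval (al (n := n) hd 0) (θ.symm (θ f)) = _
    rw [AlgEquiv.symm_apply_apply]
    rfl
  have hC : ∀ c : MvPolynomial {m : Mon n d // m ≠ m1} ℤ,
      θ (rename (fun t : {m : Mon n d // m ≠ m1} => t.1) c) = Polynomial.C c := by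
    intro c
    have h1 : (θ.toAlgHom.comp (rename (fun t : {m : Mon n d // m ≠ m1} => t.1))).toRingHom =
        (Polynomial.C : MvPolynomial {m : Mon n d // m ≠ m1} ℤ →+* _) := by
      refine MvPolynomial.ringHom_ext (fun r => ?_) (fun i => ?_)
      · simp [hθ]
      · change θ (rename _ (X i)) = _
        rw [rename_X, hθ, AlgEquiv.trans_apply, renameEquiv_apply, rename_X,
          Equiv.optionSubtypeNe_symm_of_ne i.2, optionEquivLeft_X_some]
    exact DFunLike.congr_fun h1 c
  have h1 := gen ε (fun c hc => by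
    rw [← hC, hεθ] at hc
    have h2 := no_rel hd hdet m1 _ _ le_rfl hc (by
      apply pderiv_eq_zero_of_notMem_vars
      intro hmem
      have h3 := vars_rename _ _ hmem
      rw [Finset.mem_image] at h3
      obtain ⟨t, _, ht⟩ := h3
      exact t.2 ht)
    exact (rename_injective _ Subtype.val_injective) (by rw [h2, map_zero])) (θ p) (θ e)
    ((MulEquiv.prime_iff θ).2 hp) (by rw [hεθ, hp0]) (by rw [hεθ, he])
  exact (map_dvd_iff θ).1 h1

/-- The equations of `S_MAC` vanish at the universal singular form. -/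
theorem es_zero (hd : 1 ≤ d) (s : Finset (MvPolynomial (Mon n d) ℤ))
    (hs : ∀ (k : Type) [Field k] (a : Mon n d → k), (∀ e ∈ s, aeval a e = 0) ↔
      ∃ (K : Type) (_ : Field K) (_ : Algebra k K) (x : Fin (n + 2) → K),
        x ≠ 0 ∧ Sing (fun m => algebraMap k K (a m)) x)
    {K : Type} [Field K] (ι : MvPolynomial (Vr n d 0) ℤ →+* K) (hι : Function.Injective ι) :
    ∀ e ∈ s, ae (al (n := n) hd 0) e = 0 := by
  intro e he
  have h1 := (hs K (fun m => ι (al (n := n) hd 0 m))).2
    ⟨K, inferInstance, Algebra.id K, fun i => ι (xi n d 0 i), fun h1 => by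
        have h2 := congrFun h1 0
        rw [xi_self, map_one, Pi.zero_apply] at h2
        exact one_ne_zero h2, sing_map ι (al_sing hd 0)⟩ e he
  apply hι
  rw [ae_map, map_zero]
  exact h1

theorem t_RES : S_MIN → S_ELIM → Pool.Agent.Run7.h802.FH.S_MAC → Pool.Agent.Run7.h802.FH.S_RES := by
  classical
  intro hmin _ hmac n d hd3
  have hd : 1 ≤ d := by omega
  have hdet : hess (al (n := n) hd 0) (xi n d 0) ≠ 0 := Run7.h590.HP.det_ne hd3
  obtain ⟨h, h0, hh, ⟨m0, hm0⟩, hrel⟩ := min_ae hmin (al (n := n) hd 0) (not_AI (card_Vr hd) _)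
  have hprop := der_prop hd hdet h hh
  obtain ⟨s, hs⟩ := hmac n d hd3
  -- the kernel
  set K0 : Ideal (MvPolynomial (Mon n d) ℤ) :=
    RingHom.ker (aeval (al (n := n) hd 0) : MvPolynomial (Mon n d) ℤ →ₐ[ℤ] _).toRingHom with hK0
  have hprime : K0.IsPrime := RingHom.ker_isPrime _
  obtain ⟨p0, hp0, hp0'⟩ := hprime.exists_mem_prime_of_ne_bot (by
    intro hbot
    have h1 : h ∈ K0 := hh
    rw [hbot] at h1
    exact h0 h1)
  have hp0k : ae (al (n := n) hd 0) p0 = 0 := hp0
  obtain ⟨c, hc⟩ := dvd_of_ker hd hdet m0 p0 h hp0' hp0k hh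
  have hck : ae (al (n := n) hd 0) c ≠ 0 := by
    intro h1
    apply hm0
    rw [hc, Derivation.leibniz, ae_add]
    simp only [smul_eq_mul, ae_mul, h1, hp0k, zero_mul, add_zero]
  obtain ⟨z, hz⟩ : ∃ z : ℤ, c = C z := by
    have h1 : IsUnit (map (Int.castRingHom ℚ) c) := by
      refine hrel c hck ?_ dvd_rfl
      rw [hc, map_mul]
      exact Dvd.intro_left _ rfl
    have h2 := (isUnit_iff_totalDegree_of_isReduced.1 h1).2
    rw [totalDegree, support_map_of_injective _ (RingHom.injective_int _)] at h2
    exact ⟨_, totalDegree_eq_zero_iff_eq_C.1 h2⟩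
  have hz0 : z ≠ 0 := by
    rintro rfl
    apply h0
    rw [hc, hz, map_zero, mul_zero]
  have hes : ∀ e ∈ s, ae (al (n := n) hd 0) e = 0 :=
    es_zero hd s hs (algebraMap (MvPolynomial (Vr n d 0) ℤ)
      (FractionRing (MvPolynomial (Vr n d 0) ℤ))) (IsFractionRing.injective _ _)
  refine ⟨h, gp fun i => pderiv (sp hd 0 i) h, fun i => pderiv (sp hd 0 i) h, z.natAbs, h0,
    hrel _ (gp_ne hd hdet h m0 hm0 hprop), field_part hd h hh hprop, ideal_part hd h hh, ?_, ?_⟩
  · rintro c' rfl
    rw [ae_C] at hh
    apply h0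
    rw [show c' = 0 by exact_mod_cast hh, map_zero]
  · intro p hp hMp a hpa hG
    have hfact : Fact p.Prime := ⟨hp⟩
    have h1 : ∀ e ∈ s, (p : ℤ) ∣ eval a e := by
      intro e he
      obtain ⟨e', he'⟩ := dvd_of_ker hd hdet m0 p0 e hp0' hp0k (hes e he)
      have h2 : z * eval a e = eval a h * eval a e' := by
        rw [hc, he', hz]
        simp only [map_mul, eval_C]
        ring
      have h3 : (p : ℤ) ∣ z * eval a e := by
        rw [h2]
        exact hpa.mul_right _
      rcases (Nat.prime_iff_prime_int.1 hp).dvd_or_dvd h3 with h4 | h4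
      · exfalso
        have h5 := Nat.le_of_dvd (Int.natAbs_pos.2 hz0) (Int.natCast_dvd.1 h4)
        omega
      · exact h4
    obtain ⟨K, iK, iA, x, hx, hS⟩ := (hs (ZMod p) (fun m => ((a m : ℤ) : ZMod p))).1 (by
      intro e he
      have h2 := ae_map (Int.castRingHom (ZMod p)) a e
      have h3 : ae a e = eval a e := rfl
      rw [h3, eq_intCast, (ZMod.intCast_zmod_eq_zero_iff_dvd _ _).2 (h1 e he)] at h2
      exact h2.symm)
    have hchar : CharP K p := charP_of_injective_algebraMap (algebraMap (ZMod p) K).injective p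
    simp only [map_intCast] at hS
    exact hx (hG K x hS)

end Pool.Agent.Run7.h321.FH
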